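import Pool.Agent.Helper99.PG.Goals1

/-!
# PG-CO: couplings
-/

namespace Pool.Agent.Helper88.PG

open LaurentPolynomial Pool.Agent.Helper52.C2 Pool.Agent.Helper99.PG

lemma pre_mono' (f : ℝ[T;T⁻¹]) (hf : ∀ i, 0 ≤ f.coeff i) : Monotone (pre f) := by
  intro a b h
  unfold pre
  refine Finset.sum_le_sum fun i _ => ?_
  split_ifs with h1 h2
  · exact le_rfl
  · exact absurd (h1.trans h) h2
  · exact hf i
  · exact le_rfl

lemma pre_nonneg' (f : ℝ[T;T⁻¹]) (hf : ∀ i, 0 ≤ f.coeff i) (a : ℤ) : 0 ≤ pre f a := by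
  unfold pre
  refine Finset.sum_nonneg fun i _ => ?_
  split_ifs
  · exact hf i
  · exact le_rfl

lemma pre_le_tot (f : ℝ[T;T⁻¹]) (hf : ∀ i, 0 ≤ f.coeff i) (a : ℤ) :
    pre f a ≤ ∑ i ∈ f.coeff.support, f.coeff i := by
  unfold pre
  refine Finset.sum_le_sum fun i _ => ?_
  split_ifs
  · exact le_rfl
  · exact hf i

lemma pre_eq_tot (f : ℝ[T;T⁻¹]) (a : ℤ) (h : ∀ i ∈ f.coeff.support, i ≤ a) :
    pre f a = ∑ i ∈ f.coeff.support, f.coeff i := by
  unfold pre
  exact Finset.sum_congr rfl fun i hi => if_pos (h i hi)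

lemma pre_eq_zero' (f : ℝ[T;T⁻¹]) (a : ℤ) (h : ∀ i ∈ f.coeff.support, a < i) :
    pre f a = 0 := by
  unfold pre
  exact Finset.sum_eq_zero fun i hi => if_neg (not_le.2 (h i hi))

lemma tele (g : ℤ → ℝ) (c : ℤ) (n : ℕ) :
    ∑ b ∈ Finset.Icc c (c + n), (g b - g (b - 1)) = g (c + n) - g (c - 1) := by
  induction n with
  | zero => simp
  | succ n ih =>
    have e : Finset.Icc c (c + ((n + 1 : ℕ) : ℤ)) =
        insert (c + ((n + 1 : ℕ) : ℤ)) (Finset.Icc c (c + n)) := by
      ext x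
      simp only [Finset.mem_Icc, Finset.mem_insert]
      push_cast
      omega
    rw [e, Finset.sum_insert (by simp), ih]
    have e2 : c + ((n + 1 : ℕ) : ℤ) - 1 = c + n := by push_cast; ring
    rw [e2]
    ring

lemma cl_identity (u v s t : ℝ) (h1 : u ≤ v) (h2 : s ≤ t) :
    max 0 (min v t - max u s) = max u (min v t) - max u (min v s) := by
  rcases le_total v t with a | a <;> rcases le_total u s with b | b <;>
    rcases le_total v s with c | c <;> rcases le_total u t with d | d <;>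
    simp only [min_eq_left, min_eq_right, max_eq_left, max_eq_right, a, b, c, d, h1] <;>
    first
      | (rw [max_eq_right (by linarith)] <;> linarith)
      | (rw [max_eq_left (by linarith)] <;> linarith)

lemma marg (P Q : ℤ → ℝ) (hP : Monotone P) (hQ : Monotone Q) (hP0 : ∀ a, 0 ≤ P a) (N : ℕ)
    (hQ0 : Q (-(N : ℤ) - 1) = 0) (a : ℤ) (hPa : P a ≤ Q N) :
    ∑ b ∈ Finset.Icc (-(N : ℤ)) N,
      max 0 (min (P a) (Q b) - max (P (a - 1)) (Q (b - 1))) = P a - P (a - 1) := by
  have e : Finset.Icc (-(N : ℤ)) N = Finset.Icc (-(N : ℤ)) (-(N : ℤ) + ((2 * N : ℕ) : ℤ)) := by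
    congr 1
    push_cast
    ring
  have hp : P (a - 1) ≤ P a := hP (by omega)
  rw [e, Finset.sum_congr rfl fun b _ => cl_identity (P (a - 1)) (P a) (Q (b - 1)) (Q b) hp
    (hQ (by omega)), tele (fun b => max (P (a - 1)) (min (P a) (Q b)))]
  have e2 : -(N : ℤ) + ((2 * N : ℕ) : ℤ) = N := by push_cast; ring
  rw [e2, hQ0, min_eq_left hPa, max_eq_right hp, min_eq_right (hP0 a), max_eq_left (hP0 _)]

theorem coup : GoalCoup := by
  classical
  intro hPre S hS
  obtain ⟨h1, h2, -, -, -⟩ := hPre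
  obtain ⟨M, hM⟩ := Finset.exists_le ((S.L.coeff.support ∪ S.R.coeff.support ∪
    S.F.coeff.support).image Int.natAbs)
  have hL : ∀ i ∈ S.L.coeff.support, -(M : ℤ) ≤ i ∧ i ≤ M := fun i hi => by
    have := hM i.natAbs (Finset.mem_image_of_mem _ (by simp [hi]))
    omega
  have hR : ∀ i ∈ S.R.coeff.support, -(M : ℤ) ≤ i ∧ i ≤ M := fun i hi => by
    have := hM i.natAbs (Finset.mem_image_of_mem _ (by simp [hi]))
    omega
  have hF : S.F.coeff ((M : ℤ) + 1) = 0 := by
    by_contra hne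
    have := hM ((M : ℤ) + 1).natAbs (Finset.mem_image_of_mem _ (by simp [hne]))
    omega
  have mL := pre_mono' S.L hS.L
  have mR := pre_mono' S.R hS.R
  have tL : ∀ a : ℤ, (M : ℤ) ≤ a → pre S.L a = ∑ i ∈ S.L.coeff.support, S.L.coeff i :=
    fun a ha => pre_eq_tot _ _ fun i hi => (hL i hi).2.trans ha
  have tR : ∀ a : ℤ, (M : ℤ) ≤ a → pre S.R a = ∑ i ∈ S.R.coeff.support, S.R.coeff i :=
    fun a ha => pre_eq_tot _ _ fun i hi => (hR i hi).2.trans ha
  have htot : (∑ i ∈ S.L.coeff.support, S.L.coeff i) = ∑ i ∈ S.R.coeff.support, S.R.coeff i := by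
    have := h1 S ((M : ℤ) + 1)
    rw [hF, tL _ (by omega), tR _ (by omega)] at this
    linarith
  have zL : pre S.L (-(M : ℤ) - 1) = 0 := pre_eq_zero' _ _ fun i hi => by
    have := (hL i hi).1; omega
  have zR : pre S.R (-(M : ℤ) - 1) = 0 := pre_eq_zero' _ _ fun i hi => by
    have := (hR i hi).1; omega
  have hqp : ∀ i, pre S.R i ≤ pre S.L i := fun i => by
    have := h1 S i
    have h3 := hS.F i
    linarith
  let f : ℤ × ℤ → ℝ := fun c => max 0 (min (pre S.L c.1) (pre S.R c.2) -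
    max (pre S.L (c.1 - 1)) (pre S.R (c.2 - 1)))
  have hfdef : ∀ a b, f (a, b) = max 0 (min (pre S.L a) (pre S.R b) -
    max (pre S.L (a - 1)) (pre S.R (b - 1))) := fun _ _ => rfl
  have hsupp : ∀ c, f c ≠ 0 → c.1 ∈ S.L.coeff.support ∧ c.2 ∈ S.R.coeff.support := by
    rintro ⟨a, b⟩ hc
    rw [hfdef] at hc
    have hpos : 0 < min (pre S.L a) (pre S.R b) - max (pre S.L (a - 1)) (pre S.R (b - 1)) := by
      by_contra hle
      exact hc (max_eq_left (not_lt.1 hle))
    have i1 := min_le_left (pre S.L a) (pre S.R b)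
    have i2 := min_le_right (pre S.L a) (pre S.R b)
    have i3 := le_max_left (pre S.L (a - 1)) (pre S.R (b - 1))
    have i4 := le_max_right (pre S.L (a - 1)) (pre S.R (b - 1))
    constructor
    · rw [Finsupp.mem_support_iff, ← h2 S.L a]
      intro h0
      linarith
    · rw [Finsupp.mem_support_iff, ← h2 S.R b]
      intro h0
      linarith
  let m : ℤ × ℤ →₀ ℝ := Finsupp.onFinset (S.L.coeff.support ×ˢ S.R.coeff.support) f
    (fun c hc => Finset.mem_product.2 (hsupp c hc))
  have hm : ∀ c, m c = f c := fun _ => rfl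
  refine ⟨⟨m, fun c => ?_, ?_, ?_, ?_⟩⟩
  · rw [hm]
    exact le_max_left _ _
  · rintro ⟨a, b⟩ hc
    by_contra hlt
    apply hc
    rw [hm, hfdef]
    refine max_eq_left ?_
    have i2 := min_le_right (pre S.L a) (pre S.R b)
    have i3 := le_max_left (pre S.L (a - 1)) (pre S.R (b - 1))
    have i5 := hqp b
    have i6 : pre S.L b ≤ pre S.L (a - 1) := mL (by
      have : ¬ a ≤ b := hlt
      omega)
    linarith
  · intro a
    have e1 : (∑ c ∈ m.support, if c.1 = a then m c else 0) =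
        ∑ c ∈ (insert a S.L.coeff.support) ×ˢ (Finset.Icc (-(M : ℤ)) M),
          if c.1 = a then m c else 0 := by
      refine Finset.sum_subset (fun c hc => ?_) (fun c _ hc => ?_)
      · have h3 := hsupp c (by rw [← hm]; exact Finsupp.mem_support_iff.1 hc)
        exact Finset.mem_product.2 ⟨Finset.mem_insert_of_mem h3.1,
          Finset.mem_Icc.2 (hR _ h3.2)⟩
      · rw [Finsupp.notMem_support_iff.1 hc]
        simp
    rw [e1, Finset.sum_product_right, ← h2 S.L a]
    refine Eq.trans (Finset.sum_congr rfl fun b _ => ?_)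
      (marg (pre S.L) (pre S.R) mL mR (pre_nonneg' _ hS.L) M zR a ?_)
    · rw [Finset.sum_ite_eq' (insert a S.L.coeff.support) a (fun x => m (x, b)),
        if_pos (Finset.mem_insert_self _ _), hm, hfdef]
    · rw [tR _ le_rfl, ← htot]
      exact pre_le_tot _ hS.L a
  · intro b
    have e1 : (∑ c ∈ m.support, if c.2 = b then m c else 0) =
        ∑ c ∈ (Finset.Icc (-(M : ℤ)) M) ×ˢ (insert b S.R.coeff.support),
          if c.2 = b then m c else 0 := by
      refine Finset.sum_subset (fun c hc => ?_) (fun c _ hc => ?_)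
      · have h3 := hsupp c (by rw [← hm]; exact Finsupp.mem_support_iff.1 hc)
        exact Finset.mem_product.2 ⟨Finset.mem_Icc.2 (hL _ h3.1),
          Finset.mem_insert_of_mem h3.2⟩
      · rw [Finsupp.notMem_support_iff.1 hc]
        simp
    rw [e1, Finset.sum_product, ← h2 S.R b]
    refine Eq.trans (Finset.sum_congr rfl fun a _ => ?_)
      (marg (pre S.R) (pre S.L) mR mL (pre_nonneg' _ hS.R) M zL b ?_)
    · rw [Finset.sum_ite_eq' (insert b S.R.coeff.support) b (fun x => m (a, x)),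
        if_pos (Finset.mem_insert_self _ _), hm, hfdef, min_comm, max_comm (pre S.L (a - 1))]
    · rw [tL _ le_rfl, htot]
      exact pre_le_tot _ hS.R b

end Pool.Agent.Helper88.PG
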